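import Pool.Agent.R5.CA.Upper
import Pool.Agent.R5.CA.Lower

/-!
# MP_671a46_co: additive gaps between the fully active and the usual cop number
-/

namespace Pool.Agent.Results.MP_671a46_co.CopGap

open Pool.Agent.R5.CA

theorem copNumber_eq {V : Type*} {mv : V → V → Prop} {n : ℕ} (h1 : CopsWin mv n)
    (h2 : ∀ m < n, ¬ CopsWin mv m) : copNumber mv = n := by
  apply le_antisymm
  · exact Nat.sInf_le h1
  · apply le_csInf ⟨n, h1⟩
    intro m hm
    by_contra hcon
    exact h2 m (by omega) hm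

/-- For all positive integers `k < c` there is a finite connected graph with at least one edge whose
cop number is `c` and whose fully active cop number is `c + k`. -/
theorem result (c k : ℕ) (hk : 1 ≤ k) (hkc : k < c) :
    ∃ (V : Type) (_ : Finite V) (G : SimpleGraph V), G.Connected ∧ (∃ u v, G.Adj u v) ∧
      cop G = c ∧ acop G = c + k := by
  obtain ⟨s1, s2, hcs, hs⟩ : ∃ s1 s2 : ℕ, c = s1 + s2 ∧ (s1 = s2 + k ∨ s1 = s2 + k + 1) := by
    rcases Nat.even_or_odd' (c - k) with ⟨d, hd | hd⟩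
    · exact ⟨d + k, d, by omega, by omega⟩
    · exact ⟨d + k + 1, d, by omega, by omega⟩
  obtain ⟨p, hp1, hp2⟩ := Nat.exists_infinite_primes (2 * c + 1)
  haveI : Fact p.Prime := ⟨hp2⟩
  haveI : NeZero p := ⟨hp2.ne_zero⟩
  refine ⟨Vx c k s2 p, inferInstance, Vx.G c k s2 p, Vx.connected (by omega), ?_, ?_, ?_⟩
  · exact ⟨Vx.pt 0 0, Vx.ln ⟨0, by omega⟩ 0 (Vx.b0 k s2 _), Vx.f_zero _⟩
  · exact copNumber_eq (Vx.cop_upper (by omega)) (fun m hm => Vx.cop_lower (by omega) hm)
  · have h1 := Vx.acop_upper (c := c) (k := k) (s2 := s2) (p := p) s1 (by omega) hs hcs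
    rw [show s1 + (s2 + k) = c + k by omega] at h1
    exact copNumber_eq h1 (fun m hm => Vx.acop_lower (s1 := s1) (by omega) (by omega) hcs
      (by omega) hm (by omega))

end Pool.Agent.Results.MP_671a46_co.CopGap
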